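import Mathlib
import Pool.Agent.Q154.Blum3

set_option autoImplicit false

/-!
MP_184855_gt, Q1: in ZFC there is a compact linearly ordered space without the Blumberg property.
-/

namespace Pool.Agent.Results.MP_184855_gt.CompactLOTSNotBlumberg

/-- `X` has the Blumberg property: every real-valued function on `X` has a continuous restriction to
some dense subset of `X`. -/
def BlumbergProperty (X : Type) [TopologicalSpace X] : Prop :=
  ∀ f : X → ℝ, ∃ D : Set X, Dense D ∧ Continuous (D.restrict f)

/-- There is a linearly ordered set whose order topology is compact and which does not have the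
Blumberg property. -/
theorem result : ∃ (X : Type) (_ : LinearOrder X) (_ : TopologicalSpace X),
    OrderTopology X ∧ CompactSpace X ∧ ¬ BlumbergProperty X := by
  obtain ⟨S, hS, hS'⟩ := Pool.Agent.Q154.Blum.exists_stat
  refine ⟨Pool.Agent.Q154.Blum.X S, inferInstance, inferInstance, inferInstance, inferInstance, ?_⟩
  intro h
  obtain ⟨f, hf⟩ := Pool.Agent.Q154.Blum.exists_inj hS'
  obtain ⟨D, hD, hc⟩ := h f
  exact Pool.Agent.Q154.Blum.not_blumberg hS hS' f hf D hD (continuousOn_iff_continuous_restrict.2 hc)

end Pool.Agent.Results.MP_184855_gt.CompactLOTSNotBlumberg
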